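import Pool.Agent.Q97.Renorm
import Pool.Agent.Q97.WeakNull

set_option autoImplicit false

/-!
# A super Delta-point in the closure of the denting points

The space is `ℓ_∞ × ℝ` with the norm `N (w, s) = inf_a (‖w - a 1‖_∞ + |(a, s)|_2)`.  The points
`(a 1, s)` with `a ^ 2 + s ^ 2 = 1`, `s ≠ 0` are denting (even strongly exposed), and their limit
`(1, 0)` is a super Delta-point because `(1 - 2 e_n, 0)` tends weakly to it.
-/

namespace Pool.Agent.Results.MP_a21db2_an.SuperDeltaDenting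

open Filter Topology Q97

section Definitions

variable {X : Type*} [NormedAddCommGroup X] [NormedSpace ℝ X]

/-- Slices of the unit ball. -/
def slice (f : X →L[ℝ] ℝ) (α : ℝ) : Set X := {y | ‖y‖ ≤ 1 ∧ ‖f‖ - α < f y}

/-- Denting points of the unit ball. -/
def IsDentingPoint (x : X) : Prop :=
  ‖x‖ ≤ 1 ∧ ∀ ε : ℝ, 0 < ε → ∃ (f : X →L[ℝ] ℝ) (α : ℝ), f ≠ 0 ∧ 0 < α ∧ x ∈ slice f α ∧
    Metric.diam (slice f α) < ε

/-- Delta-points. -/
def IsDeltaPoint (x : X) : Prop :=
  ‖x‖ = 1 ∧ ∀ (f : X →L[ℝ] ℝ) (α : ℝ), f ≠ 0 → 0 < α → x ∈ slice f α →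
    ∀ ε : ℝ, 0 < ε → ∃ y ∈ slice f α, 2 - ε < ‖x - y‖

/-- Super Delta-points. -/
def IsSuperDeltaPoint (x : X) : Prop :=
  ‖x‖ = 1 ∧ ∀ U : Set (WeakSpace ℝ X), IsOpen U → toWeakSpace ℝ X x ∈ U →
    ∀ ε : ℝ, 0 < ε → ∃ y : X, ‖y‖ ≤ 1 ∧ toWeakSpace ℝ X y ∈ U ∧ 2 - ε < ‖x - y‖

theorem IsSuperDeltaPoint.isDeltaPoint {x : X} (h : IsSuperDeltaPoint x) : IsDeltaPoint x := by
  refine ⟨h.1, fun f α _ _ hx ε hε => ?_⟩
  obtain ⟨y, hy1, hy2, hy3⟩ := h.2 _ (isOpen_weak_re_gt f (‖f‖ - α)) hx.2 ε hε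
  exact ⟨y, ⟨hy1, hy2⟩, hy3⟩

end Definitions

/-- Bounded real sequences. -/
abbrev Linf := lp (fun _ : ℕ => ℝ) ⊤

/-- The constant sequence one. -/
noncomputable def one : Linf := ⟨fun _ => 1, memℓp_infty ⟨1, by rintro _ ⟨i, rfl⟩; simp⟩⟩

theorem one_apply (n : ℕ) : one n = 1 := rfl

theorem norm_one_le : ‖one‖ ≤ 1 := lp.norm_le_of_forall_le zero_le_one fun n => by
  rw [one_apply]; simp

/-- The underlying space. -/
abbrev V := Linf × ℝ

/-- The quantity under the infimum. -/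
noncomputable def q (v : V) (a : ℝ) : ℝ := ‖v.1 - a • one‖ + ‖(⟨a, v.2⟩ : ℂ)‖

theorem q_nonneg (v : V) (a : ℝ) : 0 ≤ q v a := by unfold q; positivity

theorem q_bdd (v : V) : BddBelow (Set.range (q v)) := ⟨0, by rintro _ ⟨a, rfl⟩; exact q_nonneg v a⟩

theorem q_add (v w : V) (a b : ℝ) : q (v + w) (a + b) ≤ q v a + q w b := by
  unfold q
  have h1 : (v + w).1 - (a + b) • one = (v.1 - a • one) + (w.1 - b • one) := by
    rw [add_smul, Prod.fst_add]; abel
  have h2 : (⟨a + b, (v + w).2⟩ : ℂ) = ⟨a, v.2⟩ + ⟨b, w.2⟩ := by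
    apply Complex.ext <;> simp
  rw [h1, h2]
  have h3 := norm_add_le (v.1 - a • one) (w.1 - b • one)
  have h4 := norm_add_le (⟨a, v.2⟩ : ℂ) ⟨b, w.2⟩
  linarith

theorem q_smul (c : ℝ) (v : V) (a : ℝ) : q (c • v) (c * a) = |c| * q v a := by
  unfold q
  have h1 : (c • v).1 - (c * a) • one = c • (v.1 - a • one) := by
    rw [mul_smul, smul_sub, Prod.smul_fst]
  have h2 : (⟨c * a, (c • v).2⟩ : ℂ) = c • (⟨a, v.2⟩ : ℂ) := by
    apply Complex.ext <;> simp
  rw [h1, h2, norm_smul, norm_smul, Real.norm_eq_abs]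
  ring

theorem smul_le_aux (c : ℝ) (v : V) : (⨅ a, q (c • v) a) ≤ |c| * ⨅ a, q v a := by
  rw [Real.mul_iInf_of_nonneg (abs_nonneg c)]
  apply le_ciInf
  intro a
  rw [← q_smul]
  exact ciInf_le (q_bdd _) _

theorem abs_fst_le_q (v : V) (a : ℝ) : ‖v‖ ≤ q v a := by
  unfold q
  have h1 := Complex.abs_re_le_norm (⟨a, v.2⟩ : ℂ)
  have h2 := Complex.abs_im_le_norm (⟨a, v.2⟩ : ℂ)
  rw [Prod.norm_def]
  apply max_le
  · have h3 := norm_add_le (v.1 - a • one) (a • one)
    rw [sub_add_cancel, norm_smul, Real.norm_eq_abs] at h3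
    have h4 := mul_le_mul_of_nonneg_left norm_one_le (abs_nonneg a)
    simp only at h1
    linarith
  · have := norm_nonneg (v.1 - a • one)
    rw [Real.norm_eq_abs]
    simp only at h2
    linarith

/-- The norm of the example. -/
noncomputable def E : EqNorm ℝ V where
  N v := ⨅ a, q v a
  add_le v w := by
    apply le_of_forall_pos_le_add
    intro ε hε
    obtain ⟨a, ha⟩ := exists_lt_of_ciInf_lt
      (show (⨅ a, q v a) < (⨅ a, q v a) + ε / 2 by linarith)
    obtain ⟨b, hb⟩ := exists_lt_of_ciInf_lt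
      (show (⨅ a, q w a) < (⨅ a, q w a) + ε / 2 by linarith)
    have h1 := q_add v w a b
    have h2 := ciInf_le (q_bdd (v + w)) (a + b)
    linarith
  smul c v := by
    rw [Real.norm_eq_abs]
    apply le_antisymm (smul_le_aux c v)
    by_cases hc : c = 0
    · subst hc
      rw [abs_zero, zero_mul]
      exact le_ciInf fun a => q_nonneg _ a
    · have h1 := smul_le_aux c⁻¹ (c • v)
      rw [inv_smul_smul₀ hc, abs_inv] at h1
      have h2 : 0 < |c| := abs_pos.mpr hc
      calc |c| * ⨅ a, q v a ≤ |c| * (|c|⁻¹ * ⨅ a, q (c • v) a) :=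
            mul_le_mul_of_nonneg_left h1 h2.le
        _ = ⨅ a, q (c • v) a := by rw [← mul_assoc, mul_inv_cancel₀ h2.ne', one_mul]
  C := 1
  le v := by
    rw [one_mul]
    exact le_ciInf fun a => abs_fst_le_q v a
  D := 2
  ge v := by
    refine (ciInf_le (q_bdd v) 0).trans ?_
    unfold q
    rw [zero_smul, sub_zero]
    have h1 := norm_fst_le v
    have h2 := norm_snd_le v
    have h3 := Complex.norm_le_abs_re_add_abs_im (⟨0, v.2⟩ : ℂ)
    simp only [abs_zero, zero_add] at h3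
    rw [Real.norm_eq_abs] at h2
    linarith

theorem N_le (v : V) (a : ℝ) : E.N v ≤ q v a := ciInf_le (q_bdd v) a

theorem le_N {v : V} {b : ℝ} (h : ∀ a, b ≤ q v a) : b ≤ E.N v := le_ciInf h

theorem exists_q_lt {v : V} {b : ℝ} (h : E.N v < b) : ∃ a, q v a < b := exists_lt_of_ciInf_lt h

/-- The Banach space of the example. -/
abbrev X := E.Space

/-- The super Delta-point. -/
noncomputable def x₀ : X := E.toSpace (one, (0 : ℝ))

theorem norm_x₀ : ‖x₀‖ = 1 := by
  change E.N (one, (0 : ℝ)) = 1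
  apply le_antisymm
  · refine (N_le _ 0).trans ?_
    unfold q
    rw [zero_smul, sub_zero]
    have h1 := Complex.norm_le_abs_re_add_abs_im (⟨0, 0⟩ : ℂ)
    simp only [abs_zero, zero_add] at h1
    have := norm_one_le
    simp only
    linarith
  · apply le_N
    intro a
    unfold q
    have h1 := lp.norm_apply_le_norm ENNReal.top_ne_zero (one - a • one) 0
    have h2 : (one - a • one : Linf) 0 = 1 - a := by
      change one 0 - a * one 0 = 1 - a
      rw [one_apply]; ring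
    rw [h2, Real.norm_eq_abs] at h1
    have h3 := Complex.abs_re_le_norm (⟨a, 0⟩ : ℂ)
    simp only at h3 ⊢
    have h4 := le_abs_self (1 - a)
    have h5 := le_abs_self a
    linarith

/-- The unit vectors of the first summand. -/
noncomputable def u (n : ℕ) : X := E.toSpace (lp.single ⊤ n (1 : ℝ), (0 : ℝ))

theorem sum_single_apply (F : Finset ℕ) (ε : ℕ → ℝ) (i : ℕ) :
    (∑ n ∈ F, ε n • (lp.single ⊤ n (1 : ℝ) : Linf)) i = if i ∈ F then ε i else 0 := by
  have h1 := map_sum (lp.evalCLM ℝ (fun _ : ℕ => ℝ) ⊤ i)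
    (fun n => ε n • (lp.single ⊤ n (1 : ℝ) : Linf)) F
  have h2 : ∀ x : Linf, lp.evalCLM ℝ (fun _ : ℕ => ℝ) ⊤ i x = x i := fun x => rfl
  rw [h2] at h1
  rw [h1]
  have h3 : ∀ n, lp.evalCLM ℝ (fun _ : ℕ => ℝ) ⊤ i (ε n • (lp.single ⊤ n (1 : ℝ) : Linf)) =
      if n = i then ε i else 0 := by
    intro n
    rw [h2]
    change ε n * (lp.single ⊤ n (1 : ℝ) : Linf) i = _
    by_cases h : n = i
    · subst h; rw [if_pos rfl, lp.single_apply_self, mul_one]
    · rw [if_neg h, lp.single_apply_ne ⊤ n _ (Ne.symm h), mul_zero]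
  rw [Finset.sum_congr rfl fun n _ => h3 n]
  simp

theorem u_null (f : X →L[ℝ] ℝ) : Tendsto (fun n => f (u n)) atTop (𝓝 0) := by
  apply tendsto_zero_of_signed_sums (C := 2)
  intro F ε hε
  have h1 : ∑ n ∈ F, ε n • u n =
      E.toSpace (∑ n ∈ F, ε n • (lp.single ⊤ n (1 : ℝ) : Linf), (0 : ℝ)) := by
    have h2 : (∑ n ∈ F, ε n • (lp.single ⊤ n (1 : ℝ) : Linf), (0 : ℝ)) =
        ∑ n ∈ F, ε n • ((lp.single ⊤ n (1 : ℝ), (0 : ℝ)) : V) := by
      apply Prod.ext
      · rw [Prod.fst_sum]; simp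
      · rw [Prod.snd_sum]; simp
    rw [h2, map_sum]
    rfl
  rw [h1, EqNorm.norm_toSpace]
  have h3 : ‖((∑ n ∈ F, ε n • (lp.single ⊤ n (1 : ℝ) : Linf), (0 : ℝ)) : V)‖ ≤ 1 := by
    rw [Prod.norm_def]
    apply max_le
    · apply lp.norm_le_of_forall_le zero_le_one
      intro i
      rw [sum_single_apply]
      split_ifs
      · exact hε i
      · simp
    · simp
  have h4 := E.ge (∑ n ∈ F, ε n • (lp.single ⊤ n (1 : ℝ) : Linf), (0 : ℝ))
  have h5 : E.D = 2 := rfl
  rw [h5] at h4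
  linarith

theorem norm_sub_u (n : ℕ) : ‖x₀ + (-2 : ℝ) • u n‖ ≤ 1 := by
  have h1 : x₀ + (-2 : ℝ) • u n =
      E.toSpace (one + (-2 : ℝ) • (lp.single ⊤ n (1 : ℝ) : Linf), (0 : ℝ)) := by
    have h2 : (one + (-2 : ℝ) • (lp.single ⊤ n (1 : ℝ) : Linf), (0 : ℝ)) =
        ((one, (0 : ℝ)) : V) + (-2 : ℝ) • ((lp.single ⊤ n (1 : ℝ), (0 : ℝ)) : V) := by
      apply Prod.ext
      · rfl
      · simp
    rw [h2, map_add, map_smul]
    rfl
  rw [h1, EqNorm.norm_toSpace]
  refine (N_le _ 0).trans ?_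
  unfold q
  rw [zero_smul, sub_zero]
  have h1 := Complex.norm_le_abs_re_add_abs_im (⟨0, 0⟩ : ℂ)
  simp only [abs_zero, zero_add] at h1
  have h2 : ‖one + (-2 : ℝ) • (lp.single ⊤ n (1 : ℝ) : Linf)‖ ≤ 1 := by
    apply lp.norm_le_of_forall_le zero_le_one
    intro i
    change ‖one i + (-2 : ℝ) * (lp.single ⊤ n (1 : ℝ) : Linf) i‖ ≤ 1
    rw [one_apply]
    by_cases h : i = n
    · subst h
      rw [lp.single_apply_self, Real.norm_eq_abs, abs_le]
      constructor <;> norm_num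
    · rw [lp.single_apply_ne ⊤ n _ h, mul_zero, add_zero, norm_one]
  simp only
  linarith

theorem norm_two_u (n : ℕ) : 2 ≤ ‖x₀ - (x₀ + (-2 : ℝ) • u n)‖ := by
  have h1 : x₀ - (x₀ + (-2 : ℝ) • u n) =
      E.toSpace ((2 : ℝ) • (lp.single ⊤ n (1 : ℝ) : Linf), (0 : ℝ)) := by
    have h2 : ((2 : ℝ) • (lp.single ⊤ n (1 : ℝ) : Linf), (0 : ℝ)) =
        (2 : ℝ) • ((lp.single ⊤ n (1 : ℝ), (0 : ℝ)) : V) := by
      apply Prod.ext
      · rfl
      · simp
    have h3 : x₀ - (x₀ + (-2 : ℝ) • u n) = (2 : ℝ) • u n := by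
      rw [neg_smul]; abel
    rw [h2, map_smul, h3]
    rfl
  rw [h1, EqNorm.norm_toSpace]
  apply le_N
  intro a
  unfold q
  have h1 := lp.norm_apply_le_norm ENNReal.top_ne_zero
    ((2 : ℝ) • (lp.single ⊤ n (1 : ℝ) : Linf) - a • one) n
  have h2 : ((2 : ℝ) • (lp.single ⊤ n (1 : ℝ) : Linf) - a • one : Linf) n = 2 - a := by
    change (2 : ℝ) * (lp.single ⊤ n (1 : ℝ) : Linf) n - a * one n = 2 - a
    rw [one_apply, lp.single_apply_self]; ring
  rw [h2, Real.norm_eq_abs] at h1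
  have h3 := Complex.abs_re_le_norm (⟨a, 0⟩ : ℂ)
  simp only at h3 ⊢
  have h4 := le_abs_self (2 - a)
  have h5 := le_abs_self a
  linarith

theorem super_delta : IsSuperDeltaPoint x₀ := by
  refine ⟨norm_x₀, fun U hU hx ε hε => ?_⟩
  obtain ⟨n, hn⟩ := (eventually_mem_of_weaklyNull hU hx (v := u) u_null
    (c := fun _ => (-2 : ℝ)) (K := 2) (fun _ => by simp)).exists
  exact ⟨x₀ + (-2 : ℝ) • u n, norm_sub_u n, hn, lt_of_lt_of_le (by linarith) (norm_two_u n)⟩

/-- The functional which exposes the point `(a 1, s)`. -/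
noncomputable def φ (a s : ℝ) : X →ₗ[ℝ] ℝ where
  toFun y := a * (E.toSpace.symm y).1 0 + s * (E.toSpace.symm y).2
  map_add' y z := by
    rw [map_add]
    change a * ((E.toSpace.symm y).1 0 + (E.toSpace.symm z).1 0) +
      s * ((E.toSpace.symm y).2 + (E.toSpace.symm z).2) = _
    ring
  map_smul' c y := by
    rw [map_smul]
    change a * (c * (E.toSpace.symm y).1 0) + s * (c * (E.toSpace.symm y).2) = _
    simp only [RingHom.id_apply, smul_eq_mul]
    ring

theorem inner_le {a s b σ : ℝ} (h : a ^ 2 + s ^ 2 = 1) : |a * b + s * σ| ≤ ‖(⟨b, σ⟩ : ℂ)‖ := by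
  apply abs_le_of_sq_le_sq _ (norm_nonneg _)
  rw [Complex.sq_norm, Complex.normSq_mk]
  nlinarith [sq_nonneg (a * σ - s * b), sq_nonneg (a * b + s * σ)]

theorem φ_le_q {a s : ℝ} (y : X) (b : ℝ) :
    |φ a s y - (a * b + s * (E.toSpace.symm y).2)| ≤ |a| * ‖(E.toSpace.symm y).1 - b • one‖ := by
  have h1 := lp.norm_apply_le_norm ENNReal.top_ne_zero ((E.toSpace.symm y).1 - b • one) 0
  have h2 : ((E.toSpace.symm y).1 - b • one : Linf) 0 = (E.toSpace.symm y).1 0 - b := by
    change (E.toSpace.symm y).1 0 - b * one 0 = _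
    rw [one_apply]; ring
  rw [h2, Real.norm_eq_abs] at h1
  have h3 : φ a s y - (a * b + s * (E.toSpace.symm y).2) = a * ((E.toSpace.symm y).1 0 - b) := by
    change a * (E.toSpace.symm y).1 0 + s * (E.toSpace.symm y).2 - _ = _
    ring
  rw [h3, abs_mul]
  exact mul_le_mul_of_nonneg_left h1 (abs_nonneg a)

theorem φ_bound {a s : ℝ} (h : a ^ 2 + s ^ 2 = 1) (y : X) : ‖φ a s y‖ ≤ 1 * ‖y‖ := by
  rw [one_mul, EqNorm.norm_def]
  apply le_N
  intro b
  have h1 := φ_le_q (a := a) (s := s) y b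
  have h2 := inner_le (b := b) (σ := (E.toSpace.symm y).2) h
  have h3 := abs_add_le (φ a s y - (a * b + s * (E.toSpace.symm y).2))
    (a * b + s * (E.toSpace.symm y).2)
  rw [sub_add_cancel] at h3
  have ha : |a| ≤ 1 := by
    rw [← sq_le_one_iff_abs_le_one]; nlinarith [sq_nonneg s]
  have h4 : |a| * ‖(E.toSpace.symm y).1 - b • one‖ ≤ 1 * ‖(E.toSpace.symm y).1 - b • one‖ :=
    mul_le_mul_of_nonneg_right ha (norm_nonneg _)
  unfold q
  rw [Real.norm_eq_abs]
  linarith

/-- The points on the round part of the ball. -/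
noncomputable def pt (a s : ℝ) : X := E.toSpace (a • one, s)

theorem norm_pt_sub (a s b σ : ℝ) : ‖pt b σ - pt a s‖ ≤ ‖(⟨b - a, σ - s⟩ : ℂ)‖ := by
  have h1 : pt b σ - pt a s = E.toSpace ((b - a) • one, σ - s) := by
    unfold pt
    rw [← map_sub, sub_smul]
    rfl
  rw [h1, EqNorm.norm_toSpace]
  refine (N_le _ (b - a)).trans ?_
  unfold q
  simp

theorem norm_pt_le {a s : ℝ} (h : a ^ 2 + s ^ 2 = 1) : ‖pt a s‖ ≤ 1 := by
  have h1 := norm_pt_sub 0 0 a s
  have h2 : pt 0 0 = 0 := by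
    unfold pt
    rw [zero_smul]
    exact map_zero E.toSpace
  rw [h2, sub_zero, sub_zero, sub_zero] at h1
  refine h1.trans ?_
  apply le_of_sq_le_sq _ zero_le_one
  rw [Complex.sq_norm, Complex.normSq_mk]
  nlinarith

theorem denting {a s : ℝ} (h : a ^ 2 + s ^ 2 = 1) (hs : s ≠ 0) : IsDentingPoint (pt a s) := by
  refine ⟨norm_pt_le h, fun ε hε => ?_⟩
  set f : X →L[ℝ] ℝ := (φ a s).mkContinuous 1 (φ_bound h) with hf
  have hfa : ∀ y, f y = φ a s y := fun y => rfl
  have hfpt : f (pt a s) = 1 := by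
    rw [hfa]
    change a * (a * one 0) + s * s = 1
    rw [one_apply]; linear_combination h
  have hf1 : ‖f‖ ≤ 1 := LinearMap.mkContinuous_norm_le _ zero_le_one _
  have hf2 : 1 ≤ ‖f‖ := by
    have h1 := f.le_opNorm (pt a s)
    rw [hfpt, norm_one] at h1
    have h2 := mul_le_mul_of_nonneg_left (norm_pt_le h) (ContinuousLinearMap.opNorm_nonneg f)
    linarith
  have hf3 : ‖f‖ = 1 := le_antisymm hf1 hf2
  have ha : |a| < 1 := by
    rw [← sq_lt_one_iff_abs_lt_one]
    have := sq_pos_of_ne_zero hs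
    linarith
  set c : ℝ := 1 - |a| with hc
  have hc0 : 0 < c := by linarith
  set η : ℝ := ε / 8 with hη
  have hη0 : 0 < η := by positivity
  set α : ℝ := min 1 (min (c * η / 2) (η ^ 2 / (5 + 4 / c))) with hα
  have hα0 : 0 < α := lt_min one_pos (lt_min (by positivity) (by positivity))
  have hα1 : α ≤ 1 := min_le_left _ _
  have hα2 : α ≤ c * η / 2 := (min_le_right _ _).trans (min_le_left _ _)
  have hα3 : α ≤ η ^ 2 / (5 + 4 / c) := (min_le_right _ _).trans (min_le_right _ _)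
  have hα3' : 5 * α + 4 * α / c ≤ η ^ 2 := by
    rw [le_div_iff₀ (by positivity)] at hα3
    have : α * (5 + 4 / c) = 5 * α + 4 * α / c := by ring
    linarith
  refine ⟨f, α, ?_, hα0, ⟨norm_pt_le h, ?_⟩, ?_⟩
  · intro h0
    rw [h0, norm_zero] at hf3
    exact zero_ne_one hf3
  · rw [hfpt, hf3]; linarith
  · have key : ∀ y ∈ slice f α, ‖y - pt a s‖ ≤ 2 * η := by
      rintro y ⟨hy1, hy2⟩
      rw [hf3, hfa] at hy2
      rw [EqNorm.norm_def] at hy1
      obtain ⟨b, hb⟩ := exists_q_lt (lt_of_le_of_lt hy1 (show (1 : ℝ) < 1 + α by linarith))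
      set w := (E.toSpace.symm y).1 with hw
      set σ := (E.toSpace.symm y).2 with hσ
      set μ := ‖w - b • one‖ with hμ
      set ρ := ‖(⟨b, σ⟩ : ℂ)‖ with hρ
      have hμ0 : 0 ≤ μ := norm_nonneg _
      have hρ0 : 0 ≤ ρ := norm_nonneg _
      have hb' : μ + ρ < 1 + α := hb
      have h1 := φ_le_q (a := a) (s := s) y b
      rw [← hw, ← hσ, ← hμ] at h1
      have h2 := (le_abs_self _).trans h1
      have h3 := (le_abs_self _).trans (inner_le (b := b) (σ := σ) h)
      rw [← hρ] at h3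
      have h4 : c * μ < 2 * α := by
        have : c * μ = μ - |a| * μ := by rw [hc]; ring
        linarith
      have h5 : μ < 2 * α / c := by rw [lt_div_iff₀ hc0]; linarith
      have h6 : 2 * α / c ≤ η := by rw [div_le_iff₀ hc0]; linarith
      have h7 : |a| * μ ≤ μ := by
        have := mul_le_mul_of_nonneg_right ha.le hμ0
        linarith
      have h8 : ‖(⟨b - a, σ - s⟩ : ℂ)‖ ≤ η := by
        apply le_of_sq_le_sq _ hη0.le
        have e1 : ‖(⟨b - a, σ - s⟩ : ℂ)‖ ^ 2 = ρ ^ 2 - 2 * (a * b + s * σ) + 1 := by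
          rw [hρ, Complex.sq_norm, Complex.normSq_mk, Complex.sq_norm, Complex.normSq_mk, ← h]
          ring
        have e2 : ρ ^ 2 ≤ (1 + α) ^ 2 := pow_le_pow_left₀ hρ0 (by linarith) 2
        have e3 : α ^ 2 ≤ α := by
          have := mul_le_mul_of_nonneg_left hα1 hα0.le
          rw [sq]; linarith
        have e4 : (1 + α) ^ 2 = 1 + 2 * α + α ^ 2 := by ring
        have e5 : 4 * α / c = 2 * (2 * α / c) := by ring
        rw [e1]
        linarith
      have h9 : y - pt a s = (y - pt b σ) + (pt b σ - pt a s) := by abel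
      have h10 : ‖y - pt b σ‖ ≤ μ := by
        have e1 : y - pt b σ = E.toSpace (w - b • one, (0 : ℝ)) := by
          have e2 : y = E.toSpace (w, σ) := rfl
          rw [e2]
          unfold pt
          rw [← map_sub]
          congr 1
          apply Prod.ext
          · rfl
          · change σ - σ = 0
            ring
        rw [e1, EqNorm.norm_toSpace]
        refine (N_le _ 0).trans ?_
        unfold q
        rw [zero_smul, sub_zero]
        have h1 := Complex.norm_le_abs_re_add_abs_im (⟨0, 0⟩ : ℂ)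
        simp only [abs_zero, zero_add] at h1
        simp only
        linarith
      rw [h9]
      refine (norm_add_le _ _).trans ?_
      have := norm_pt_sub a s b σ
      linarith
    refine lt_of_le_of_lt (Metric.diam_le_of_forall_dist_le (C := 4 * η) (by positivity) ?_)
      (by rw [hη]; linarith)
    intro y hy z hz
    rw [dist_eq_norm]
    have h1 : y - z = (y - pt a s) - (z - pt a s) := by abel
    rw [h1]
    refine (norm_sub_le _ _).trans ?_
    linarith [key y hy, key z hz]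

theorem mem_closure : x₀ ∈ closure {y : X | IsDentingPoint y} := by
  rw [Metric.mem_closure_iff]
  intro ε hε
  set t : ℝ := min 1 (ε / 8) with ht
  have ht0 : 0 < t := lt_min one_pos (by positivity)
  have ht1 : t ≤ 1 := min_le_left _ _
  have ht2 : t ≤ ε / 8 := min_le_right _ _
  have hd : 0 < 1 + t ^ 2 := by positivity
  refine ⟨pt ((1 - t ^ 2) / (1 + t ^ 2)) (2 * t / (1 + t ^ 2)), ?_, ?_⟩
  · apply denting
    · field_simp; ring
    · positivity
  · have h1 : x₀ = pt 1 0 := by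
      unfold x₀ pt
      rw [one_smul]
    rw [dist_eq_norm, h1]
    refine lt_of_le_of_lt (norm_pt_sub _ _ _ _) ?_
    refine lt_of_le_of_lt (Complex.norm_le_abs_re_add_abs_im _) ?_
    simp only
    have e1 : 1 - (1 - t ^ 2) / (1 + t ^ 2) = 2 * t ^ 2 / (1 + t ^ 2) := by field_simp; ring
    have e2 : 2 * t ^ 2 / (1 + t ^ 2) ≤ 2 * t ^ 2 :=
      div_le_self (by positivity) (by nlinarith)
    have e3 : 2 * t / (1 + t ^ 2) ≤ 2 * t := div_le_self (by positivity) (by nlinarith)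
    rw [e1, zero_sub, abs_neg, abs_of_nonneg (by positivity), abs_of_nonneg (by positivity)]
    nlinarith

/-- There is a real Banach space with a super Delta-point (hence Delta-point) in the closure of
the set of denting points of its unit ball. -/
theorem result : ∃ (X : Type) (_ : NormedAddCommGroup X) (_ : NormedSpace ℝ X),
    CompleteSpace X ∧
    ∃ x : X, IsSuperDeltaPoint x ∧ IsDeltaPoint x ∧ x ∈ closure {y : X | IsDentingPoint y} :=
  ⟨X, inferInstance, inferInstance, inferInstance, x₀, super_delta, super_delta.isDeltaPoint,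
    mem_closure⟩

end Pool.Agent.Results.MP_a21db2_an.SuperDeltaDenting
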